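import Pool.Agent.Helper94.Tot.Goals

/-!
# Packet N2 of MP_05f971_nt
-/

set_option autoImplicit false

open Finset

namespace Pool.Agent.Helper64.Tot

open Pool.Agent.Helper94.Tot

theorem lg_nonneg (k : ℕ) : 0 ≤ lg k := by
  unfold lg
  rcases Nat.eq_zero_or_pos k with h | h
  · subst h; simp
  · exact Real.logb_nonneg (by norm_num) (by exact_mod_cast h)

theorem lg_le {k n : ℕ} (hk : k ∈ PN n) : lg k ≤ n := by
  unfold PN at hk
  rw [mem_filter, mem_Icc] at hk
  unfold lg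
  have h1 : (0:ℝ) < k := by exact_mod_cast hk.1.1
  rw [Real.logb_le_iff_le_rpow (by norm_num) h1, Real.rpow_natCast]
  exact_mod_cast hk.1.2

theorem mem_PN_of_dvd {n p q : ℕ} (hp : p ∈ DB n) (hq : q ∈ (p - 1).primeFactors) :
    q ∈ PN (n + 1) := by
  unfold DB at hp
  unfold PN
  rw [mem_filter, mem_Ioc] at hp
  rw [mem_filter, mem_Icc]
  have h1 := Nat.prime_of_mem_primeFactors hq
  have h2 := Nat.le_of_mem_primeFactors hq
  exact ⟨⟨h1.one_lt.le, by omega⟩, h1⟩

/-- the pairs of prime factors -/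
theorem pair_facts {n p : ℕ} (hp : p ∈ DB n) {x : ℕ × ℕ}
    (hx : x ∈ (p - 1).primeFactors.offDiag) :
    x.1 ∈ PN (n + 1) ∧ x.2 ∈ PN (n + 1) ∧ x.1 ≠ x.2 ∧ x.1 * x.2 ∣ p - 1 ∧
      x.1 * x.2 ≤ 2 ^ (n + 1) := by
  rw [mem_offDiag] at hx
  obtain ⟨h1, h2, h3⟩ := hx
  have p1 := Nat.prime_of_mem_primeFactors h1
  have p2 := Nat.prime_of_mem_primeFactors h2
  have hd : x.1 * x.2 ∣ p - 1 :=
    Nat.Coprime.mul_dvd_of_dvd_of_dvd ((Nat.coprime_primes p1 p2).2 h3)
      (Nat.dvd_of_mem_primeFactors h1) (Nat.dvd_of_mem_primeFactors h2)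
  refine ⟨mem_PN_of_dvd hp h1, mem_PN_of_dvd hp h2, h3, hd, ?_⟩
  unfold DB at hp
  rw [mem_filter, mem_Ioc] at hp
  have := Nat.le_of_dvd (by have := Nat.one_le_two_pow (n := n); omega) hd
  omega

/-- the sum over pairs is at most twice the sum over the pairs with `x.1^2 ≤ 2^(n+1)`. -/
theorem pairs_le {n p : ℕ} (hp : p ∈ DB n) (F : ℕ → ℝ) (hF : ∀ q, 0 ≤ F q) :
    ∑ x ∈ (p - 1).primeFactors.offDiag, F x.1 * F x.2
      ≤ 2 * ∑ x ∈ ((p - 1).primeFactors.offDiag).filter (fun x => x.1 ^ 2 ≤ 2 ^ (n + 1)),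
        F x.1 * F x.2 := by
  have hsw : ∑ x ∈ ((p - 1).primeFactors.offDiag).filter (fun x => x.2 ^ 2 ≤ 2 ^ (n + 1)),
        F x.1 * F x.2
      = ∑ x ∈ ((p - 1).primeFactors.offDiag).filter (fun x => x.1 ^ 2 ≤ 2 ^ (n + 1)),
        F x.1 * F x.2 := by
    refine Finset.sum_nbij' Prod.swap Prod.swap ?_ ?_ ?_ ?_ ?_
    · intro x hx
      rw [mem_filter, mem_offDiag] at hx ⊢
      exact ⟨⟨hx.1.2.1, hx.1.1, hx.1.2.2.symm⟩, hx.2⟩
    · intro x hx
      rw [mem_filter, mem_offDiag] at hx ⊢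
      exact ⟨⟨hx.1.2.1, hx.1.1, hx.1.2.2.symm⟩, hx.2⟩
    · intro x _; simp
    · intro x _; simp
    · intro x _; simp [mul_comm]
  have hsub : (p - 1).primeFactors.offDiag ⊆
      ((p - 1).primeFactors.offDiag).filter (fun x => x.1 ^ 2 ≤ 2 ^ (n + 1)) ∪
      ((p - 1).primeFactors.offDiag).filter (fun x => x.2 ^ 2 ≤ 2 ^ (n + 1)) := by
    intro x hx
    have h := (pair_facts hp hx).2.2.2.2
    rw [mem_union, mem_filter, mem_filter]
    rcases le_total x.1 x.2 with hle | hle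
    · left; exact ⟨hx, by nlinarith⟩
    · right; exact ⟨hx, by nlinarith⟩
  calc ∑ x ∈ (p - 1).primeFactors.offDiag, F x.1 * F x.2
      ≤ ∑ x ∈ ((p - 1).primeFactors.offDiag).filter (fun x => x.1 ^ 2 ≤ 2 ^ (n + 1)) ∪
      ((p - 1).primeFactors.offDiag).filter (fun x => x.2 ^ 2 ≤ 2 ^ (n + 1)), F x.1 * F x.2 :=
        Finset.sum_le_sum_of_subset_of_nonneg hsub
          (fun x _ _ => mul_nonneg (hF _) (hF _))
    _ ≤ ∑ x ∈ ((p - 1).primeFactors.offDiag).filter (fun x => x.1 ^ 2 ≤ 2 ^ (n + 1)),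
          F x.1 * F x.2 +
        ∑ x ∈ ((p - 1).primeFactors.offDiag).filter (fun x => x.2 ^ 2 ≤ 2 ^ (n + 1)),
          F x.1 * F x.2 := by
        rw [← Finset.sum_union_inter]
        exact le_add_of_nonneg_right (Finset.sum_nonneg (fun x _ => mul_nonneg (hF _) (hF _)))
    _ = _ := by rw [hsw]; ring

/-- exchange of the sums -/
theorem exchange (n : ℕ) (F : ℕ → ℝ) (hF : ∀ q, 0 ≤ F q) :
    ∑ p ∈ DB n, ∑ x ∈ ((p - 1).primeFactors.offDiag).filter (fun x => x.1 ^ 2 ≤ 2 ^ (n + 1)),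
        F x.1 * F x.2
      ≤ ∑ b ∈ (PN (n + 1)).filter (fun b => b ^ 2 ≤ 2 ^ (n + 1)),
          ∑ k ∈ PN (n + 1), F b * F k *
            (((DB n).filter (fun p => b ≠ k ∧ b * k ∣ p - 1)).card : ℝ) := by
  have h1 : ∀ p ∈ DB n,
      ∑ x ∈ ((p - 1).primeFactors.offDiag).filter (fun x => x.1 ^ 2 ≤ 2 ^ (n + 1)),
        F x.1 * F x.2
      ≤ ∑ b ∈ (PN (n + 1)).filter (fun b => b ^ 2 ≤ 2 ^ (n + 1)),
          ∑ k ∈ PN (n + 1),
            if b ≠ k ∧ b * k ∣ p - 1 then F b * F k else 0 := by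
    intro p hp
    calc ∑ x ∈ ((p - 1).primeFactors.offDiag).filter (fun x => x.1 ^ 2 ≤ 2 ^ (n + 1)),
            F x.1 * F x.2
        ≤ ∑ x ∈ ((PN (n + 1)).filter (fun b => b ^ 2 ≤ 2 ^ (n + 1))) ×ˢ (PN (n + 1)),
              (if x.1 ≠ x.2 ∧ x.1 * x.2 ∣ p - 1 then F x.1 * F x.2 else 0) := by
          rw [← Finset.sum_filter]
          refine Finset.sum_le_sum_of_subset_of_nonneg ?_ (fun x _ _ => mul_nonneg (hF _) (hF _))
          intro x hx
          rw [mem_filter] at hx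
          obtain ⟨h1, h2, h3, h4, h5⟩ := pair_facts hp hx.1
          rw [mem_filter, mem_product, mem_filter]
          exact ⟨⟨⟨h1, hx.2⟩, h2⟩, h3, h4⟩
      _ = _ := by rw [Finset.sum_product]
  calc _ ≤ ∑ p ∈ DB n, ∑ b ∈ (PN (n + 1)).filter (fun b => b ^ 2 ≤ 2 ^ (n + 1)),
          ∑ k ∈ PN (n + 1),
            (if b ≠ k ∧ b * k ∣ p - 1 then F b * F k else 0) := Finset.sum_le_sum h1
    _ = _ := by
      rw [Finset.sum_comm]
      refine Finset.sum_congr rfl (fun b _ => ?_)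
      rw [Finset.sum_comm]
      refine Finset.sum_congr rfl (fun k _ => ?_)
      rw [← Finset.sum_filter, Finset.sum_const, nsmul_eq_mul, mul_comm]

/-- the number of `p` with a large cofactor -/
theorem card_large {C₂ : ℝ} (hC₂ : 0 < C₂)
    (hBT : ∀ d N : ℕ, 1 ≤ d → 2 ≤ N →
      (((Icc 1 N).filter (fun t => (d * t + 1).Prime)).card : ℝ)
        ≤ C₂ * (N / Real.log N) * (d / (Nat.totient d : ℝ)))
    (κ : ℕ) (hκ : 1 ≤ κ) (n : ℕ) (hn : 1 ≤ n) (b k : ℕ) (hb : b.Prime) (hk : k.Prime)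
    (hbk : b ≠ k) :
    (((DB n).filter (fun p => b * k ∣ p - 1 ∧ 2 ^ n ≤ ((p - 1) / (b * k)) ^ κ)).card : ℝ)
      ≤ C₂ * (2 * κ / Real.log 2) * 4 * (2 ^ n / n) / (b * k) := by
  have hb1 : (0:ℝ) < b := by exact_mod_cast hb.pos
  have hk1 : (0:ℝ) < k := by exact_mod_cast hk.pos
  have hn0 : (0:ℝ) < n := by exact_mod_cast hn
  have hl2 : 0 < Real.log 2 := Real.log_pos (by norm_num)
  have hκ0 : (0:ℝ) < κ := by exact_mod_cast hκ
  set S := (DB n).filter (fun p => b * k ∣ p - 1 ∧ 2 ^ n ≤ ((p - 1) / (b * k)) ^ κ) with hS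
  rcases S.eq_empty_or_nonempty with he | ⟨p, hp⟩
  · rw [he, card_empty, Nat.cast_zero]
    positivity
  have hdpos : 0 < b * k := Nat.mul_pos hb.pos hk.pos
  have hmem : ∀ p ∈ S, p.Prime ∧ 2 ^ n < p ∧ p ≤ 2 ^ (n + 1) ∧ b * k ∣ p - 1 ∧
      2 ^ n ≤ ((p - 1) / (b * k)) ^ κ := by
    intro p hp
    rw [hS, mem_filter] at hp
    unfold DB at hp
    rw [mem_filter, mem_Ioc] at hp
    exact ⟨hp.1.2, hp.1.1.1, hp.1.1.2, hp.2.1, hp.2.2⟩
  set N := 2 ^ (n + 1) / (b * k) with hN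
  have hle : ∀ p ∈ S, (p - 1) / (b * k) ≤ N := by
    intro p hp
    have := (hmem p hp).2.2.1
    exact Nat.div_le_div_right (by omega)
  have hpow : 2 ^ n ≤ N ^ κ := le_trans (hmem p hp).2.2.2.2 (Nat.pow_le_pow_left (hle p hp) κ)
  have hN2 : 2 ≤ N := by
    by_contra hlt
    have hN1 : N ≤ 1 := by omega
    have h1 : N ^ κ ≤ 1 := by
      calc N ^ κ ≤ 1 ^ κ := Nat.pow_le_pow_left hN1 κ
        _ = 1 := one_pow κ
    have h2 : 2 ≤ 2 ^ n := by
      calc 2 = 2 ^ 1 := rfl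
        _ ≤ 2 ^ n := Nat.pow_le_pow_right (by norm_num) hn
    omega
  have hNr : (2:ℝ) ≤ N := by exact_mod_cast hN2
  have hlogN : n * Real.log 2 ≤ κ * Real.log N := by
    have h1 : ((2:ℝ)) ^ n ≤ (N:ℝ) ^ κ := by exact_mod_cast hpow
    have h2 := Real.log_le_log (by positivity) h1
    rwa [Real.log_pow, Real.log_pow] at h2
  have hlogpos : 0 < Real.log N := Real.log_pos (by linarith)
  have hcard : (S.card : ℝ) ≤ (((Icc 1 N).filter (fun t => (b * k * t + 1).Prime)).card : ℝ) := by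
    have : S.card ≤ ((Icc 1 N).filter (fun t => (b * k * t + 1).Prime)).card := by
      refine Finset.card_le_card_of_injOn (fun p => (p - 1) / (b * k)) ?_ ?_
      · intro p hp
        rw [Finset.mem_coe] at hp ⊢
        rw [mem_filter, mem_Icc]
        obtain ⟨h1, h2, h3, h4, h5⟩ := hmem p hp
        have h6 : b * k * ((p - 1) / (b * k)) = p - 1 := Nat.mul_div_cancel' h4
        have h7 := Nat.one_le_two_pow (n := n)
        refine ⟨⟨?_, hle p hp⟩, ?_⟩
        · rw [Nat.one_le_iff_ne_zero]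
          intro h0
          have h0' : (p - 1) / (b * k) = 0 := h0
          rw [h0', mul_zero] at h6
          omega
        · show (b * k * ((p - 1) / (b * k)) + 1).Prime
          rw [h6, Nat.sub_add_cancel h1.one_lt.le]; exact h1
      · intro p hp q hq hpq
        rw [Finset.mem_coe] at hp hq
        obtain ⟨h1, h2, h3, h4, h5⟩ := hmem p hp
        obtain ⟨g1, g2, g3, g4, g5⟩ := hmem q hq
        have h6 : b * k * ((p - 1) / (b * k)) = p - 1 := Nat.mul_div_cancel' h4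
        have g6 : b * k * ((q - 1) / (b * k)) = q - 1 := Nat.mul_div_cancel' g4
        have h7 : p - 1 = q - 1 := by
          rw [← h6, ← g6]; exact congrArg _ hpq
        have := h1.one_lt
        have := g1.one_lt
        omega
    exact_mod_cast this
  have hbt := hBT (b * k) N hdpos hN2
  have htot : ((b * k : ℕ) : ℝ) / (Nat.totient (b * k) : ℝ) ≤ 4 := by
    rw [Nat.totient_mul ((Nat.coprime_primes hb hk).2 hbk), Nat.totient_prime hb,
      Nat.totient_prime hk]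
    have hb2 : (2:ℝ) ≤ b := by exact_mod_cast hb.two_le
    have hk2 : (2:ℝ) ≤ k := by exact_mod_cast hk.two_le
    have e1 : ((b - 1 : ℕ) : ℝ) = b - 1 := by
      rw [Nat.cast_sub hb.one_lt.le]; simp
    have e2 : ((k - 1 : ℕ) : ℝ) = k - 1 := by
      rw [Nat.cast_sub hk.one_lt.le]; simp
    push_cast
    rw [e1, e2, div_le_iff₀ (by apply mul_pos <;> linarith)]
    nlinarith [mul_nonneg (by linarith : (0:ℝ) ≤ (b:ℝ) - 2) (by linarith : (0:ℝ) ≤ (k:ℝ) - 2)]
  have hNle : (N : ℝ) ≤ 2 ^ (n + 1) / (b * k) := by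
    rw [hN]
    have := @Nat.cast_div_le ℝ _ _ _ (2 ^ (n + 1)) (b * k)
    push_cast at this ⊢
    exact this
  have hq : (N : ℝ) / Real.log N ≤ (2 * κ / Real.log 2) * (2 ^ n / n) / (b * k) := by
    have hinv : 1 / Real.log N ≤ κ / (n * Real.log 2) := by
      rw [div_le_div_iff₀ hlogpos (by positivity)]
      linarith
    calc (N : ℝ) / Real.log N = N * (1 / Real.log N) := by ring
      _ ≤ (2 ^ (n + 1) / (b * k)) * (κ / (n * Real.log 2)) := by
          apply mul_le_mul hNle hinv (by positivity) (by positivity)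
      _ = _ := by
          rw [pow_succ]
          field_simp
  calc (S.card : ℝ) ≤ _ := hcard
    _ ≤ _ := hbt
    _ ≤ C₂ * ((2 * κ / Real.log 2) * (2 ^ n / n) / (b * k)) * 4 := by
        apply mul_le_mul _ htot (by positivity) (by positivity)
        exact mul_le_mul_of_nonneg_left hq hC₂.le
    _ = _ := by ring

theorem pf_N2 (hNB : StmtNB) (hBT : StmtBT) (hM1 : StmtM1) : StmtN2 := by
  obtain ⟨κ, C₁, hκ, hC₁, hNB⟩ := hNB
  obtain ⟨C₂, hC₂, hBT⟩ := hBT
  obtain ⟨C₃, hC₃, hM1⟩ := hM1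
  have hl2 : 0 < Real.log 2 := Real.log_pos (by norm_num)
  have hκ0 : (0:ℝ) < κ := by exact_mod_cast hκ
  set C' : ℝ := C₂ * (2 * κ / Real.log 2) * 4 with hC'
  have hC'0 : 0 < C' := by positivity
  refine ⟨2 * (C' + C₁) + 2 * (2 * (2 + C₃) * C₁), by positivity, ?_⟩
  intro n hn g hg
  have hn0 : (0:ℝ) < n := by exact_mod_cast hn
  have hn1 : (1:ℝ) ≤ n := by exact_mod_cast hn
  have hsq : 0 < √(n:ℝ) := Real.sqrt_pos.2 hn0
  set F : ℕ → ℝ := fun q => lg q * g q with hFdef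
  have hF : ∀ q, 0 ≤ F q := fun q => mul_nonneg (lg_nonneg q) (hg q).1
  set A : ℝ := AA g (n + 1) with hA
  have hAF : ∑ k ∈ PN (n + 1), F k / k = A := by
    rw [hA]; unfold AA
    refine Finset.sum_congr rfl (fun k _ => ?_)
    rw [hFdef]; ring
  have hA0 : 0 ≤ A := by
    rw [← hAF]; exact Finset.sum_nonneg (fun k _ => div_nonneg (hF k) (Nat.cast_nonneg k))
  have hFB : ∀ k ∈ PN (n + 1), F k ≤ (n + 1 : ℕ) := by
    intro k hk
    calc F k = lg k * g k := rfl
      _ ≤ lg k * 1 := mul_le_mul_of_nonneg_left (hg k).2 (lg_nonneg k)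
      _ ≤ (n + 1 : ℕ) := by rw [mul_one]; exact lg_le hk
  have hlgsum : ∑ b ∈ PN (n + 1), lg b / b ≤ (n + 1 : ℕ) + C₃ := by
    have := (abs_le.1 (hM1 (n + 1))).2
    linarith
  -- step 1
  have s1 : ∑ p ∈ DB n, ∑ x ∈ (p - 1).primeFactors.offDiag, (lg x.1 * g x.1) * (lg x.2 * g x.2)
      ≤ 2 * ∑ b ∈ (PN (n + 1)).filter (fun b => b ^ 2 ≤ 2 ^ (n + 1)),
          ∑ k ∈ PN (n + 1), F b * F k *
            (((DB n).filter (fun p => b ≠ k ∧ b * k ∣ p - 1)).card : ℝ) := by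
    calc _ ≤ ∑ p ∈ DB n, 2 * ∑ x ∈ ((p - 1).primeFactors.offDiag).filter
              (fun x => x.1 ^ 2 ≤ 2 ^ (n + 1)), F x.1 * F x.2 :=
          Finset.sum_le_sum (fun p hp => pairs_le hp F hF)
      _ = 2 * ∑ p ∈ DB n, ∑ x ∈ ((p - 1).primeFactors.offDiag).filter
              (fun x => x.1 ^ 2 ≤ 2 ^ (n + 1)), F x.1 * F x.2 := by rw [Finset.mul_sum]
      _ ≤ _ := mul_le_mul_of_nonneg_left (exchange n F hF) (by norm_num)
  -- step 2: each b
  have s2 : ∀ b ∈ (PN (n + 1)).filter (fun b => b ^ 2 ≤ 2 ^ (n + 1)),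
      ∑ k ∈ PN (n + 1), F b * F k * (((DB n).filter (fun p => b ≠ k ∧ b * k ∣ p - 1)).card : ℝ)
      ≤ (F b / b) * ((C' + C₁) * (2 ^ n / n) * A) +
        (lg b / b) * (C₁ * (n + 1 : ℕ) * 2 ^ n / (n * √n)) := by
    intro b hb
    rw [mem_filter] at hb
    obtain ⟨hbP, hb2⟩ := hb
    have hbprime : b.Prime := by
      unfold PN at hbP; exact (mem_filter.1 hbP).2
    have hb0 : (0:ℝ) < b := by exact_mod_cast hbprime.pos
    have hsplit : ∀ k ∈ PN (n + 1),
        F b * F k * (((DB n).filter (fun p => b ≠ k ∧ b * k ∣ p - 1)).card : ℝ)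
        ≤ F b * (F k / k) * (C' * (2 ^ n / n) / b) +
          F b * (F k * (((DB n).filter
            (fun p => b * k ∣ p - 1 ∧ ((p - 1) / (b * k)) ^ κ < 2 ^ n)).card : ℝ)) := by
      intro k hk
      have hkprime : k.Prime := by
        unfold PN at hk; exact (mem_filter.1 hk).2
      have hk0 : (0:ℝ) < k := by exact_mod_cast hkprime.pos
      have hc : (((DB n).filter (fun p => b ≠ k ∧ b * k ∣ p - 1)).card : ℝ)
          ≤ C' * (2 ^ n / n) / (b * k) + (((DB n).filter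
            (fun p => b * k ∣ p - 1 ∧ ((p - 1) / (b * k)) ^ κ < 2 ^ n)).card : ℝ) := by
        by_cases hbk : b = k
        · have : (DB n).filter (fun p => b ≠ k ∧ b * k ∣ p - 1) = ∅ := by
            rw [Finset.filter_eq_empty_iff]
            intro p _ h
            exact h.1 hbk
          rw [this, card_empty, Nat.cast_zero]
          positivity
        · have h1 : ((DB n).filter (fun p => b ≠ k ∧ b * k ∣ p - 1)).card ≤
              ((DB n).filter (fun p => b * k ∣ p - 1 ∧ 2 ^ n ≤ ((p - 1) / (b * k)) ^ κ)).card +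
              ((DB n).filter
                (fun p => b * k ∣ p - 1 ∧ ((p - 1) / (b * k)) ^ κ < 2 ^ n)).card := by
            refine le_trans (Finset.card_le_card ?_) (Finset.card_union_le _ _)
            intro p hp
            rw [mem_filter] at hp
            rw [mem_union, mem_filter, mem_filter]
            rcases le_or_gt (2 ^ n) (((p - 1) / (b * k)) ^ κ) with h | h
            · left; exact ⟨hp.1, hp.2.2, h⟩
            · right; exact ⟨hp.1, hp.2.2, h⟩
          have h2 := card_large hC₂ hBT κ hκ n hn b k hbprime hkprime hbk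
          have h3 : ((((DB n).filter (fun p => b ≠ k ∧ b * k ∣ p - 1)).card : ℕ) : ℝ) ≤
              (((DB n).filter
                (fun p => b * k ∣ p - 1 ∧ 2 ^ n ≤ ((p - 1) / (b * k)) ^ κ)).card : ℝ) +
              (((DB n).filter
                (fun p => b * k ∣ p - 1 ∧ ((p - 1) / (b * k)) ^ κ < 2 ^ n)).card : ℝ) := by
            exact_mod_cast h1
          linarith
      have hFF : 0 ≤ F b * F k := mul_nonneg (hF b) (hF k)
      calc _ ≤ F b * F k * (C' * (2 ^ n / n) / (b * k) + (((DB n).filter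
            (fun p => b * k ∣ p - 1 ∧ ((p - 1) / (b * k)) ^ κ < 2 ^ n)).card : ℝ)) :=
            mul_le_mul_of_nonneg_left hc hFF
        _ = _ := by field_simp
    have hnb := hNB n hn b (Or.inr hbprime) hb2 F (n + 1 : ℕ) hF hFB
    rw [hAF] at hnb
    calc _ ≤ ∑ k ∈ PN (n + 1), (F b * (F k / k) * (C' * (2 ^ n / n) / b) +
          F b * (F k * (((DB n).filter
            (fun p => b * k ∣ p - 1 ∧ ((p - 1) / (b * k)) ^ κ < 2 ^ n)).card : ℝ))) :=
          Finset.sum_le_sum hsplit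
      _ = F b * A * (C' * (2 ^ n / n) / b) + F b * ∑ k ∈ PN (n + 1),
          (F k * (((DB n).filter
            (fun p => b * k ∣ p - 1 ∧ ((p - 1) / (b * k)) ^ κ < 2 ^ n)).card : ℝ)) := by
          rw [Finset.sum_add_distrib, ← Finset.sum_mul, ← Finset.mul_sum, ← Finset.mul_sum, hAF]
      _ ≤ F b * A * (C' * (2 ^ n / n) / b) +
          F b * (C₁ * (2 ^ n / (b * n)) * A + C₁ * (n + 1 : ℕ) * 2 ^ n / (b * (n * √n))) :=
          add_le_add le_rfl (mul_le_mul_of_nonneg_left hnb (hF b))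
      _ = (F b / b) * ((C' + C₁) * (2 ^ n / n) * A) +
          (F b / b) * (C₁ * (n + 1 : ℕ) * 2 ^ n / (n * √n)) := by
          field_simp
          ring
      _ ≤ _ := by
          apply add_le_add le_rfl
          apply mul_le_mul_of_nonneg_right _ (by positivity)
          apply div_le_div_of_nonneg_right _ hb0.le
          calc F b = lg b * g b := rfl
            _ ≤ lg b * 1 := mul_le_mul_of_nonneg_left (hg b).2 (lg_nonneg b)
            _ = lg b := mul_one _
  -- step 3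
  have s3 : ∑ b ∈ (PN (n + 1)).filter (fun b => b ^ 2 ≤ 2 ^ (n + 1)),
          ∑ k ∈ PN (n + 1), F b * F k *
            (((DB n).filter (fun p => b ≠ k ∧ b * k ∣ p - 1)).card : ℝ)
      ≤ A * ((C' + C₁) * (2 ^ n / n) * A) +
        ((n + 1 : ℕ) + C₃) * (C₁ * (n + 1 : ℕ) * 2 ^ n / (n * √n)) := by
    calc _ ≤ ∑ b ∈ (PN (n + 1)).filter (fun b => b ^ 2 ≤ 2 ^ (n + 1)),
          ((F b / b) * ((C' + C₁) * (2 ^ n / n) * A) +
          (lg b / b) * (C₁ * (n + 1 : ℕ) * 2 ^ n / (n * √n))) := Finset.sum_le_sum s2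
      _ ≤ ∑ b ∈ PN (n + 1),
          ((F b / b) * ((C' + C₁) * (2 ^ n / n) * A) +
          (lg b / b) * (C₁ * (n + 1 : ℕ) * 2 ^ n / (n * √n))) := by
          refine Finset.sum_le_sum_of_subset_of_nonneg (Finset.filter_subset _ _) ?_
          intro b _ _
          have h1 := hF b
          have h2 := lg_nonneg b
          positivity
      _ = A * ((C' + C₁) * (2 ^ n / n) * A) +
          (∑ b ∈ PN (n + 1), lg b / b) * (C₁ * (n + 1 : ℕ) * 2 ^ n / (n * √n)) := by
          rw [Finset.sum_add_distrib, ← Finset.sum_mul, ← Finset.sum_mul, hAF]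
      _ ≤ _ := by
          apply add_le_add le_rfl
          exact mul_le_mul_of_nonneg_right hlgsum (by positivity)
  have s4 : ((n + 1 : ℕ) + C₃) * (C₁ * (n + 1 : ℕ) * 2 ^ n / (n * √n))
      ≤ 2 * (2 + C₃) * C₁ * n * 2 ^ n / √n := by
    have e1 : ((n + 1 : ℕ) : ℝ) ≤ 2 * n := by push_cast; linarith
    have e2 : ((n + 1 : ℕ) : ℝ) + C₃ ≤ (2 + C₃) * n := by
      nlinarith
    calc _ ≤ ((2 + C₃) * n) * (C₁ * (2 * n) * 2 ^ n / (n * √n)) := by
          apply mul_le_mul e2 _ (by positivity) (by positivity)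
          apply div_le_div_of_nonneg_right _ (by positivity)
          apply mul_le_mul_of_nonneg_right _ (by positivity)
          exact mul_le_mul_of_nonneg_left e1 hC₁.le
      _ = _ := by field_simp
  calc _ ≤ _ := s1
    _ ≤ 2 * (A * ((C' + C₁) * (2 ^ n / n) * A) + 2 * (2 + C₃) * C₁ * n * 2 ^ n / √n) := by
        apply mul_le_mul_of_nonneg_left _ (by norm_num)
        exact le_trans s3 (add_le_add le_rfl s4)
    _ = 2 * (C' + C₁) * (2 ^ n / n) * A ^ 2 + 2 * (2 * (2 + C₃) * C₁) * n * 2 ^ n / √n := by ring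
    _ ≤ _ := by
        apply add_le_add
        · apply mul_le_mul_of_nonneg_right _ (by positivity)
          apply mul_le_mul_of_nonneg_right _ (by positivity)
          have : 0 ≤ 2 * (2 * (2 + C₃) * C₁) := by positivity
          linarith
        · apply div_le_div_of_nonneg_right _ hsq.le
          apply mul_le_mul_of_nonneg_right _ (by positivity)
          apply mul_le_mul_of_nonneg_right _ hn0.le
          have : 0 ≤ 2 * (C' + C₁) := by positivity
          linarith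

end Pool.Agent.Helper64.Tot
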